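import Pool.Agent.H92.EQ.TK

/-!
# (KB) the Jacobian determinant
-/

set_option autoImplicit false

namespace Pool.Agent.H52.EQ

open Pool.Agent.H92.EQ
open scoped BigOperators ComplexConjugate ContDiff ComplexOrder
open MeasureTheory

theorem det_hom {n L : ℕ} (M : Matrix (Fin n) (Fin n) (MvPolynomial (Fin L) ℂ)) {s : ℕ}
    (hM : ∀ i j, (M i j).IsHomogeneous s) : M.det.IsHomogeneous (n * s) := by
  rw [Matrix.det_apply]
  refine MvPolynomial.IsHomogeneous.sum _ _ _ fun σ _ => ?_
  have h : (∏ i, M (σ i) i).IsHomogeneous (n * s) := by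
    have h1 := MvPolynomial.IsHomogeneous.prod Finset.univ (fun i => M (σ i) i) (fun _ => s)
      fun i _ => hM _ _
    rw [Finset.sum_const, Finset.card_univ, Fintype.card_fin, smul_eq_mul] at h1
    exact h1
  rcases Int.units_eq_one_or (Equiv.Perm.sign σ) with h1 | h1 <;> rw [h1]
  · rw [one_smul]
    exact h
  · rw [Units.neg_smul, one_smul]
    exact h.neg

theorem nsq_pos' {N : ℕ} {z : Fin N → ℂ} (hz : z ≠ 0) : 0 < nsq z := by
  obtain ⟨i, hi⟩ : ∃ i, z i ≠ 0 := by
    by_contra hno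
    push Not at hno
    exact hz (funext hno)
  unfold nsq
  refine Finset.sum_pos' (fun j _ => by positivity) ⟨i, Finset.mem_univ i, ?_⟩
  have := norm_pos_iff.2 hi
  positivity

theorem nrm_pos' {N : ℕ} {z : Fin N → ℂ} (hz : z ≠ 0) : 0 < nrm z := Real.sqrt_pos.2 (nsq_pos' hz)

theorem nrm_sq' {N : ℕ} (z : Fin N → ℂ) : nrm z ^ 2 = nsq z :=
  Real.sq_sqrt (Finset.sum_nonneg fun i _ => by positivity)

theorem nsq_smul' {N : ℕ} (r : ℝ) (z : Fin N → ℂ) : nsq ((r : ℂ) • z) = r ^ 2 * nsq z := by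
  unfold nsq
  rw [Finset.mul_sum]
  refine Finset.sum_congr rfl fun i _ => ?_
  rw [Pi.smul_apply, smul_eq_mul, norm_mul, mul_pow, Complex.norm_real, Real.norm_eq_abs, sq_abs]

theorem nrm_smul' {N : ℕ} {r : ℝ} (hr : 0 < r) (z : Fin N → ℂ) :
    nrm ((r : ℂ) • z) = r * nrm z := by
  unfold nrm
  rw [nsq_smul', Real.sqrt_mul (by positivity), Real.sqrt_sq hr.le]

theorem continuous_nrm' {N : ℕ} : Continuous (nrm : (Fin N → ℂ) → ℝ) := by
  refine Real.continuous_sqrt.comp ?_
  show Continuous fun z : Fin N → ℂ => ∑ i, ‖z i‖ ^ 2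
  fun_prop

theorem eval_smul' {N M : ℕ} {h : MvPolynomial (Fin N) ℂ} (hh : h.IsHomogeneous M) (r : ℂ)
    (z : Fin N → ℂ) : MvPolynomial.eval (r • z) h = r ^ M * MvPolynomial.eval z h := by
  rw [MvPolynomial.eval_eq', MvPolynomial.eval_eq', Finset.mul_sum]
  refine Finset.sum_congr rfl fun m hm => ?_
  have h1 : m.degree = M := by
    have h2 := hh (MvPolynomial.mem_support_iff.1 hm)
    exact (DFunLike.congr_fun (Finsupp.degree_eq_weight_one (R := ℕ)) m).trans h2
  have h2 : ∏ i, ((r • z) i) ^ m i = r ^ M * ∏ i, z i ^ m i := by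
    simp only [Pi.smul_apply, smul_eq_mul, mul_pow]
    rw [Finset.prod_mul_distrib, Finset.prod_pow_eq_pow_sum, ← h1, Finsupp.degree_eq_sum]
  rw [h2]
  ring

theorem pf_KB (hG3 : T_G3) (hL5 : T_L5) (hL6 : T_L6) : T_KB := by
  intro N d F hN hd hF
  have heval : ∀ z, MvPolynomial.eval z (detP F) = (jac F z).det := by
    intro z
    unfold detP
    rw [RingHom.map_det]
    rfl
  have hhom : (detP F).IsHomogeneous (N * (d - 1)) :=
    det_hom _ fun i a => (hF.hom i).pderiv
  have hM : 1 ≤ N * (d - 1) := Nat.mul_pos hN (by omega)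
  have hne : detP F ≠ 0 := by
    intro h0
    have h := hG3 N d F (by omega) hF
    have h1 : (fun z => ENNReal.ofReal (‖(jac F z).det‖ ^ 2)) = (0 : (Fin N → ℂ) → ENNReal) := by
      funext z
      rw [← heval z, h0, map_zero]
      simp
    rw [h1, withDensity_zero, Measure.map_zero] at h
    have h2 := congrArg (fun μ : Measure (Fin N → ℂ) => μ Set.univ) h
    simp only [Measure.coe_zero, Pi.zero_apply, Measure.smul_apply, smul_eq_mul] at h2
    rcases mul_eq_zero.1 h2.symm with h3 | h3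
    · have hd0 : (d : ENNReal) ≠ 0 := by
        exact_mod_cast (by omega : d ≠ 0)
      exact pow_ne_zero N hd0 h3
    · exact (Measure.measure_univ_ne_zero.2
        (NeZero.ne (volume : Measure (Fin N → ℂ)))) h3
  refine ⟨hne, hhom, heval, ?_, ?_⟩
  · obtain ⟨B, hB0, hB⟩ := (hL6 N).1 (nv (detP F) (N * (d - 1))) (by
        unfold nv
        refine ContinuousOn.div ?_ (continuous_nrm'.pow _).continuousOn ?_
        · exact (MvPolynomial.continuous_eval (detP F)).norm.continuousOn
        · intro z hz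
          exact pow_ne_zero _ (nrm_pos' hz).ne') (by
        intro r z hr hz
        unfold nv
        rw [eval_smul' hhom, nrm_smul' hr, norm_mul, norm_pow, Complex.norm_real,
          Real.norm_eq_abs, abs_of_pos hr, mul_pow]
        exact mul_div_mul_left _ _ (pow_ne_zero _ hr.ne'))
    refine ⟨max B 1, le_max_right _ _, fun z hz => ?_⟩
    exact ((le_abs_self _).trans (hB z hz)).trans (le_max_left _ _)
  · intro ε hε
    refine ⟨hL5 N (N * (d - 1)) (detP F) ε hM hhom hε, ?_⟩
    intro z hz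
    have hs := nsq_pos' hz
    set M := N * (d - 1) with hMdef
    have hMR : (M : ℝ) ≠ 0 := by
      have : (0 : ℝ) < M := by exact_mod_cast hM
      exact this.ne'
    have hnv : nv (detP F) M z ^ 2 = ‖MvPolynomial.eval z (detP F)‖ ^ 2 / nsq z ^ M := by
      unfold nv
      rw [div_pow, ← pow_mul, mul_comm M 2, pow_mul, nrm_sq']
    have h1 : nv (detP F) M z ^ 2 + ε ^ 2 =
        (‖MvPolynomial.eval z (detP F)‖ ^ 2 + ε ^ 2 * nsq z ^ M) / nsq z ^ M := by
      rw [hnv]
      field_simp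
    rw [h1, Real.log_div (by positivity) (by positivity), Real.log_pow]
    unfold we ell
    field_simp

end Pool.Agent.H52.EQ
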