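import Pool.Agent.H92.EQ.TK

/-!
# (KA) the Green potentials and (KE) telescoping
-/

set_option autoImplicit false

namespace Pool.Agent.H52.EQ

open Pool.Agent.H92.EQ
open scoped BigOperators ComplexConjugate ContDiff ComplexOrder
open MeasureTheory

theorem ev_iter_zero {N : ℕ} (F : Fin N → MvPolynomial (Fin N) ℂ) (z : Fin N → ℂ) :
    ev (iter F 0) z = z := by
  funext i
  show MvPolynomial.eval z (MvPolynomial.X i) = z i
  exact MvPolynomial.eval_X i

theorem pf_KA (hD12 : T_D12) (hL3 : T_L3) (hL6 : T_L6) : T_KA := by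
  intro N d F hd hF
  have hd1 : 1 ≤ d := by omega
  have hdR : (2 : ℝ) ≤ d := by exact_mod_cast hd
  have hd0 : (0 : ℝ) < d := by linarith
  obtain ⟨hell, -, hpull⟩ := hL3 N
  have hPot : ∀ n, Pot (Gn F d n) := by
    intro n
    have h := hpull (d ^ n) (iter F n) ell (Nat.one_le_pow _ _ hd1) (hD12 N d F hd1 hF 0 n).1 hell
    have heq : (fun z => (1 / (((d ^ n : ℕ) : ℝ))) * ell (ev (iter F n) z)) = Gn F d n := by
      funext z
      unfold Gn
      push_cast
      rfl
    rw [← heq]
    exact h
  have hrel : ∀ m i z, z ≠ 0 →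
      Gn F d (m + i) z = (1 / (d : ℝ) ^ m) * Gn F d i (ev (iter F m) z) := by
    intro m i z _
    have h := (hD12 N d F hd1 hF i m).2.1 z
    unfold Gn
    rw [add_comm m i, h, pow_add]
    rw [← mul_assoc]
    congr 1
    rw [one_div_mul_one_div, mul_comm]
  have hne : ∀ n z, z ≠ 0 → ev (iter F n) z ≠ 0 := by
    intro n z hz h
    exact hz ((hD12 N d F hd1 hF 0 n).1.nd z h)
  have h0 : ∀ z, Gn F d 0 z = ell z := by
    intro z
    unfold Gn
    rw [ev_iter_zero, pow_zero, div_one, one_mul]
  obtain ⟨B, hB0, hB⟩ := (hL6 N).1 (fun z => Gn F d 1 z - ell z)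
    ((hPot 1).smooth.continuousOn.sub hell.smooth.continuousOn) (by
      intro r z hr hz
      have hr' : (r : ℂ) ≠ 0 := by exact_mod_cast hr.ne'
      rw [(hPot 1).loghom _ z hr' hz, hell.loghom _ z hr' hz]
      ring)
  have hstep : ∀ n z, z ≠ 0 → |Gn F d (n + 1) z - Gn F d n z| ≤ B * (1 / (d : ℝ) ^ n) := by
    intro n z hz
    have h1 : Gn F d n z = (1 / (d : ℝ) ^ n) * ell (ev (iter F n) z) := rfl
    rw [hrel n 1 z hz, h1, ← mul_sub, abs_mul, mul_comm]
    rw [abs_of_pos (by positivity : (0 : ℝ) < 1 / (d : ℝ) ^ n)]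
    exact mul_le_mul_of_nonneg_right (hB _ (hne n z hz)) (by positivity)
  have hmain : ∀ l n z, l ≤ n → z ≠ 0 →
      |Gn F d n z - Gn F d l z| ≤ 2 * B * (1 / (d : ℝ) ^ l - 1 / (d : ℝ) ^ n) := by
    intro l n z hln hz
    induction n, hln using Nat.le_induction with
    | base => simp
    | succ n hn ih =>
      have h1 := hstep n z hz
      have h2 : |Gn F d (n + 1) z - Gn F d l z| ≤
          |Gn F d (n + 1) z - Gn F d n z| + |Gn F d n z - Gn F d l z| := by
        have := abs_add_le (Gn F d (n + 1) z - Gn F d n z) (Gn F d n z - Gn F d l z)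
        simpa using this
      have h3 : 1 / (d : ℝ) ^ (n + 1) ≤ (1 / (d : ℝ) ^ n) * (1 / 2) := by
        rw [pow_succ, ← one_div_mul_one_div]
        refine mul_le_mul_of_nonneg_left ?_ (by positivity)
        exact one_div_le_one_div_of_le (by norm_num) hdR
      have h4 : B * (1 / (d : ℝ) ^ (n + 1)) ≤ B * ((1 / (d : ℝ) ^ n) * (1 / 2)) :=
        mul_le_mul_of_nonneg_left h3 hB0.le
      nlinarith [h1, h2, h4, ih]
  refine ⟨hPot, hrel, 2 * B, by positivity, ?_, ?_⟩
  · intro n z hz
    have h := hmain 0 n z (Nat.zero_le n) hz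
    rw [h0] at h
    refine h.trans ?_
    have h1 : (0 : ℝ) ≤ 1 / (d : ℝ) ^ n := by positivity
    rw [pow_zero, div_one]
    nlinarith
  · intro l n z hln hz
    refine (hmain l n z hln hz).trans ?_
    have h1 : (0 : ℝ) ≤ 1 / (d : ℝ) ^ n := by positivity
    rw [div_eq_mul_one_div (2 * B)]
    refine mul_le_mul_of_nonneg_left ?_ (by positivity)
    linarith

theorem pf_KE (hP7 : T_P7) : T_KE := by
  intro N p q S W E G L B hpq hS hW hE hG hL hB
  classical
  let u : ℕ → Fin q → (Fin N → ℂ) → ℝ := fun k i => if (i : ℕ) < k then G else L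
  have hPu : ∀ k j, Pot (u k j) := by
    intro k j
    show Pot (if (j : ℕ) < k then G else L)
    split_ifs
    · exact hG
    · exact hL
  have hu0 : u 0 = fun _ => L := by
    funext i
    exact if_neg (Nat.not_lt_zero _)
  have huq : u q = fun _ => G := by
    funext i
    exact if_pos i.isLt
  have hBL : ∀ z, z ≠ 0 → |L z - G z| ≤ B := by
    intro z hz
    rw [abs_sub_comm]
    exact hB z hz
  have hstep : ∀ k, k < q → |pair (fun z => E z - W z) S (u k) -
      pair (fun z => E z - W z) S (u (k + 1))| ≤ 2 * B * mass q S := by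
    intro k hk
    have h := hP7 N p q S (u k) ⟨k, hk⟩ L G E W B hpq hS (hPu k) hL hG hE hW hBL
    have h1 : Function.update (u k) ⟨k, hk⟩ L = u k := by
      have : u k ⟨k, hk⟩ = L := if_neg (lt_irrefl k)
      rw [← this, Function.update_eq_self]
    have h2 : Function.update (u k) ⟨k, hk⟩ G = u (k + 1) := by
      funext i
      by_cases hi : i = ⟨k, hk⟩
      · rw [hi, Function.update_self]
        exact (if_pos (Nat.lt_succ_self k)).symm
      · rw [Function.update_of_ne hi]
        have hne : (i : ℕ) ≠ k := fun h => hi (Fin.ext h)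
        show (if (i : ℕ) < k then G else L) = if (i : ℕ) < k + 1 then G else L
        by_cases hlt : (i : ℕ) < k
        · rw [if_pos hlt, if_pos (by omega)]
        · rw [if_neg hlt, if_neg (by omega)]
    rw [h1, h2] at h
    exact h
  have hsum : ∀ k, k ≤ q → |pair (fun z => E z - W z) S (u 0) -
      pair (fun z => E z - W z) S (u k)| ≤ k * (2 * B * mass q S) := by
    intro k
    induction k with
    | zero => intro _; simp
    | succ k ih =>
      intro hk
      have h1 := ih (by omega)
      have h2 := hstep k (by omega)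
      have h3 := abs_add_le (pair (fun z => E z - W z) S (u 0) -
        pair (fun z => E z - W z) S (u k)) (pair (fun z => E z - W z) S (u k) -
        pair (fun z => E z - W z) S (u (k + 1)))
      rw [sub_add_sub_cancel] at h3
      push_cast
      linarith
  have h := hsum q le_rfl
  rw [hu0, huq] at h
  refine h.trans (le_of_eq ?_)
  ring

end Pool.Agent.H52.EQ
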